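import Pool.Agent.X309.PQ.Low
import Pool.Agent.W619.Y.Main
import Pool.Agent.W619.X.Fin
import Pool.Agent.W602.GT.SpDefs

/-!
# Quotients of products: general type, or many images of a curve of genus at most one
-/

set_option autoImplicit false
set_option linter.overlappingInstances false
set_option linter.unusedSectionVars false

universe u v

open FF IntermediateField Pool.Agent.W619.PQ Pool.Agent.W619.PL Pool.Agent.W619.TW
  Pool.Agent.W619.X Pool.Agent.W619.Y MvPolynomial
open Pool.Agent.W602.GT (coords IsForm val)

namespace Pool.Agent.X309.PQ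

/-- `E` is the function field of a curve of genus zero or one: it is a rational function field, or
there is a vector field without zeros and poles on the curve. -/
def IsLow (k E : Type*) [Field k] [Field E] [Algebra k E] : Prop :=
  (∃ t : E, k⟮t⟯ = ⊤) ∨
    ∃ D : Derivation k E E, ∀ w : Place k E, ∀ t : E, w.ord t = 1 → D t ≠ 0 ∧ w.ord (D t) = 0

/-- Every morphism from a smooth projective curve of genus zero or one to the projective variety `X`
with generic point `x`, whose image is not contained in the closed subset of `X` defined by the form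
`H`, is constant. The morphism is given by its homogeneous coordinates `z` in the function field `E`
of the curve: the forms which vanish at `x` vanish at `z`; and it is constant if the ratios of the
coordinates belong to `k`. -/
def NoLow (k : Type) [Field k] {K : Type} [Field K] [Algebra k K] {N : ℕ}
    (x : Fin (N + 1) → K) (H : MvPolynomial (Fin (N + 1)) k) : Prop :=
  ∀ (E : Type) [Field E] [Algebra k E], IsFF k E → IsLow k E →
    ∀ z : Fin (N + 1) → E, z ≠ 0 →
      (∀ P : MvPolynomial (Fin (N + 1)) k, IsForm P → val x P = 0 → val z P = 0) →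
      val z H ≠ 0 → coords k z = ⊥

section

variable {k : Type v} {L : Type u} [Field k] [CharZero k] [IsAlgClosed k] [Field L] [Algebra k L]

/-- The product of `Y` and of all the curves but one, and this curve. -/
theorem cur_mixed (d n : ℕ) (hn : Algebra.trdeg k L = (d + n : ℕ)) (M : IntermediateField k L)
    (hM : Algebra.trdeg k M = d) (F : Fin n → IntermediateField k L) [hF : ∀ i, IsFF k (F i)]
    (hsup : M ⊔ (⨆ i, F i) = ⊤) (i0 : Fin n) :
    Cur (M ⊔ ⨆ j : {j : Fin n // j ≠ i0}, F j.1) (F i0) := by
  classical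
  let ι := {j : Fin n // j ≠ i0}
  set M' : IntermediateField k L := M ⊔ ⨆ j : ι, F j.1 with hM'
  have hle0 : M ≤ M' := le_sup_left
  have hle : ∀ j, j ≠ i0 → F j ≤ M' := fun j hj =>
    le_trans (le_iSup (fun j : ι => F j.1) ⟨j, hj⟩) le_sup_right
  refine ⟨hF i0, fun y hy halg => ?_, ?_⟩
  · choose x hx using fun i => IsFF.exists_transcendental (k := k) (K := F i)
    obtain ⟨s, hs⟩ := exists_isTranscendenceBasis k M
    let T : Set L := (Subtype.val '' s) ∪ Set.range fun j : ι => (x j.1 : L)
    let S : IntermediateField k L := adjoin k T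
    let A : IntermediateField S L := algebraicClosure S L
    have hMA : ∀ z ∈ M', z ∈ A := by
      have h0 : M' ≤ A.restrictScalars k := by
        refine sup_le ?_ (iSup_le fun j z hz => ?_)
        · intro z hz
          rw [mem_restrictScalars, mem_algebraicClosure_iff]
          exact Pool.Agent.W318.PG.URAT.alg_of_basis M s hs S
            (fun y hy => subset_adjoin k _ (Or.inl ⟨y, hy, rfl⟩)) ⟨z, hz⟩
        · rw [mem_restrictScalars, mem_algebraicClosure_iff]
          exact alg_of_mem (F j.1) (hx j.1) S (subset_adjoin k _ (Or.inr ⟨j, rfl⟩)) ⟨z, hz⟩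
      intro z hz
      exact h0 hz
    let f : M' →+* A := (algebraMap M' L).codRestrict A fun z => hMA z z.2
    have hyA : (y : L) ∈ A := by
      have h3 : IsAlgebraic A (y : L) :=
        halg.ringHom_of_comp_eq f (RingHom.id L) f.injective (by ext z; rfl)
      rw [mem_algebraicClosure_iff]
      exact h3.restrictScalars S
    have hFA : F i0 ≤ A.restrictScalars k := by
      intro z hz
      have h4 := alg_of_mem (F i0) hy (A.restrictScalars k) hyA ⟨z, hz⟩
      have h5 : IsAlgebraic A z := h4
      rw [mem_restrictScalars, mem_algebraicClosure_iff]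
      exact h5.restrictScalars S
    have htop : (⊤ : IntermediateField k L) ≤ A.restrictScalars k := by
      rw [← hsup]
      refine sup_le (fun z hz => hMA z (hle0 hz)) (iSup_le fun j => ?_)
      by_cases hj : j = i0
      · subst hj; exact hFA
      · exact fun z hz => hMA z (hle j hj hz)
    have hLA : ∀ z : L, IsAlgebraic S z := by
      intro z
      have h1 : z ∈ A := htop (by trivial : z ∈ (⊤ : IntermediateField k L))
      exact mem_algebraicClosure_iff.1 h1
    have h4 : Algebra.IsAlgebraic (Algebra.adjoin k T) L := Pool.Agent.W619.PQ.alg_adjoin hLA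
    have h5 := Algebra.IsAlgebraic.trdeg_le_cardinalMk k T
    rw [hn] at h5
    have h6 : Cardinal.mk (Set.range fun j : ι => (x j.1 : L)) ≤ ((n - 1 : ℕ) : Cardinal) := by
      have h7 : Cardinal.lift.{0} (Cardinal.mk (Set.range fun j : ι => (x j.1 : L))) ≤
          Cardinal.lift (Cardinal.mk ι) := Cardinal.mk_range_le_lift
      have h8 : Fintype.card ι = n - 1 := by
        rw [Fintype.card_subtype_compl, Fintype.card_fin, Fintype.card_subtype_eq]
      rw [Cardinal.mk_fintype ι, h8] at h7
      simpa using h7
    have h6' : Cardinal.mk (Subtype.val '' s : Set L) ≤ ((d : ℕ) : Cardinal) := by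
      have h7 : Cardinal.mk (Subtype.val '' s : Set L) ≤ Cardinal.mk s := Cardinal.mk_image_le
      have h8 := hs.cardinalMk_eq_trdeg
      rw [hM] at h8
      exact h7.trans h8.le
    have h7 : Cardinal.mk T ≤ ((d + (n - 1) : ℕ) : Cardinal) := by
      refine (Cardinal.mk_union_le _ _).trans ?_
      push_cast
      exact add_le_add h6' h6
    have h8 : d + n ≤ d + (n - 1) := by exact_mod_cast h5.trans h7
    have h9 : 0 < n := i0.pos
    omega
  · rw [eq_top_iff, ← hsup]
    refine sup_le (hle0.trans le_sup_left) (iSup_le fun j => ?_)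
    by_cases hj : j = i0
    · subst hj; exact le_sup_right
    · exact (hle j hj).trans le_sup_left

/-- The case of a point. -/
theorem kodTr_zero (M : Type*) [Field M] [Algebra k M] : KodTr k M 0 0 := by
  refine ⟨1, le_rfl, fun _ _ => 1, fun _ => ⟨?_, ?_, ?_⟩, fun i => i.elim0,
    fun _ => one_ne_zero, ?_⟩
  · intro A D
    simp
  · intro v _ _ D _
    exact Or.inr ⟨1, Finset.mem_singleton_self _, one_ne_zero, by
      rw [v.ord_one]; simp⟩
  · intro v _ _ D _
    exact Or.inr ⟨1, Finset.mem_singleton_self _, one_ne_zero, by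
      rw [v.ord_one]; simp⟩
  · rw [algebraicIndependent_empty_type_iff]
    exact (algebraMap k M).injective

end

section

variable {k : Type} {L : Type} [Field k] [CharZero k] [IsAlgClosed k] [Field L] [Algebra k L]

/-- If one of the curves has genus at most one, there are many images of it on every projective
variety whose function field is a subfield of `L` with `L` algebraic over it. -/
theorem not_noLow (d n : ℕ) (hn : Algebra.trdeg k L = (d + n : ℕ)) (M : IntermediateField k L)
    (hM : Algebra.trdeg k M = d) (F : Fin n → IntermediateField k L) [hF : ∀ i, IsFF k (F i)]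
    (hsup : M ⊔ (⨆ i, F i) = ⊤) (i : Fin n) (hi : (∃ t : F i, k⟮t⟯ = ⊤) ∨ IsElliptic (F i))
    (K : IntermediateField k L) (hK : Algebra.IsAlgebraic K L) {N : ℕ} (x : Fin (N + 1) → K)
    (hx : x ≠ 0) (hgen : coords k x = ⊤) (H : MvPolynomial (Fin (N + 1)) k) (hH : IsForm H)
    (hH0 : val x H ≠ 0) : ¬ NoLow k x H := by
  intro hno
  have hmap : ∀ P : MvPolynomial (Fin (N + 1)) k,
      aeval (fun j => (x j : L)) P = ((aeval x P : K) : L) := by
    intro P
    have := MvPolynomial.comp_aeval_apply (f := x) K.val P
    exact this.symm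
  obtain ⟨z, hz, hz1, hz2⟩ := exists_pt (cur_mixed d n hn M hM F hsup i) (fun j => (x j : L))
    (fun h => hx (funext fun j => Subtype.ext (congrFun h j))) (fun E hE => by
      have h1 : K ≤ E := by
        have h2 : (⊤ : IntermediateField k K) ≤ E.comap K.val := by
          rw [← hgen]
          unfold coords
          rw [IntermediateField.adjoin_le_iff]
          rintro _ ⟨i, j, hj, rfl⟩
          change ((x i / x j : K) : L) ∈ E
          push_cast
          exact hE i j fun h => hj (Subtype.ext h)
        intro y hy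
        exact h2 (by trivial : (⟨y, hy⟩ : K) ∈ (⊤ : IntermediateField k K))
      refine ⟨fun y => ?_⟩
      have h3 : IsAlgebraic K y := hK.isAlgebraic y
      exact h3.ringHom_of_comp_eq (IntermediateField.inclusion h1 : K →+* E) (RingHom.id L)
        (IntermediateField.inclusion h1).injective (by ext z; rfl)) H hH (by
      rw [hmap]
      exact fun h => hH0 (Subtype.ext h))
  have hbot := hno (F i) (hF i) hi z hz.1 (fun P hP hP0 => hz.2 P hP (by
    rw [hmap, show aeval x P = 0 from hP0]
    rfl)) hz1
  obtain ⟨j, hj⟩ : ∃ j, z j ≠ 0 := by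
    by_contra h0
    push Not at h0
    exact hz.1 (funext h0)
  have hrat : ∀ i, ∃ a : k, algebraMap k _ a = z i / z j := by
    intro l
    have h1 : z l / z j ∈ coords k z := subset_adjoin k _ ⟨l, j, hj, rfl⟩
    rw [hbot] at h1
    exact IntermediateField.mem_bot.1 h1
  choose a ha using hrat
  exact hz2 ⟨z j, a, fun l => by rw [ha]; field_simp⟩

theorem alg_fixed (G : Subgroup (L ≃ₐ[k] L)) [Finite G] : Algebra.IsAlgebraic (fixedField G) L := by
  have hGal : IsGaloisGroup G (fixedField G) L := isGaloisGroup_fixed G
  have := IsGaloisGroup.finiteDimensional G (fixedField G) L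
  exact Algebra.IsAlgebraic.of_finite _ _

/-- **Quotients of products.** -/
theorem main (d n : ℕ) (hn : Algebra.trdeg k L = (d + n : ℕ)) (M : IntermediateField k L)
    [Algebra.EssFiniteType k M] (hM : Algebra.trdeg k M = d) (hY : d = 0 ∨ KodTr k M d d)
    (F : Fin n → IntermediateField k L) [hF : ∀ i, IsFF k (F i)] (hsup : M ⊔ (⨆ i, F i) = ⊤)
    (G : Subgroup (L ≃ₐ[k] L)) [Finite G] (σ : G →* Equiv.Perm (Fin n))
    (hσ : ∀ (g : G) i, ∀ z ∈ F i, (g : L ≃ₐ[k] L) z ∈ F (σ g i))
    (h : MixedPos G σ F ∨ (d = 0 ∧ (∀ g i, σ g i = i) ∧ PosCond G F))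
    {N : ℕ} (x : Fin (N + 1) → fixedField G) (hx : x ≠ 0) (hgen : coords k x = ⊤)
    (H : MvPolynomial (Fin (N + 1)) k) (hH : IsForm H) (hH0 : val x H ≠ 0)
    (hno : NoLow k x H) : KodGe k (fixedField G) (d + n) (fun _ => False) (d + n) := by
  have hall : ∀ i, ¬ (∃ t : F i, k⟮t⟯ = ⊤) ∧ ¬ IsElliptic (F i) := by
    intro i
    rw [← not_or]
    exact fun hi => not_noLow d n hn M hM F hsup i hi (fixedField G) (alg_fixed G) x hx hgen H hH
      hH0 hno
  rcases h with h | ⟨rfl, hσ1, h⟩
  · refine (psefM d n hn M hM F (alg_of_top M F hsup) G σ hσ h).1 ?_ hall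
    rcases hY with hY | hY
    · subst hY
      exact kodTr_zero M
    · exact hY
  · have hn' : Algebra.trdeg k L = (n : ℕ) := by rw [hn, Nat.zero_add]
    have hMbot : M = ⊥ := by
      have h1 : Algebra.IsAlgebraic k M := by
        have h2 : Algebra.trdeg k M = 0 := by rw [hM]; simp
        exact trdeg_eq_zero_iff.1 h2
      rw [eq_bot_iff]
      intro z hz
      obtain ⟨c, hc⟩ := (IsAlgClosed.algebraMap_bijective_of_isIntegral (k := k) (K := M)).2 ⟨z, hz⟩
      exact IntermediateField.mem_bot.2 ⟨c, congrArg Subtype.val hc⟩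
    have htop : (⨆ i, F i) = ⊤ := by rw [← hsup, hMbot, bot_sup_eq]
    have h1 := (gtC n hn' F hF ⟨fun z => by
      have hz : z ∈ (⨆ i, F i) := by rw [htop]; trivial
      exact isAlgebraic_algebraMap (⟨z, hz⟩ : ↥(⨆ i, F i))⟩ G (fun i g hg z hz => by
        have h2 := hσ ⟨g, hg⟩ i z hz
        rwa [hσ1] at h2) h).1 hall
    rw [Nat.zero_add]
    exact h1

end

end Pool.Agent.X309.PQ
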