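import Pool.Agent.W381.PG.GaussA

/-!
# Images of a fixed curve on a variety covered by them

If a projective variety is dominated by the product of a variety and a curve with function field
`F`, there are maps from this curve to it which are not constant and whose images are not contained
in a given proper closed subset.
-/

set_option autoImplicit false
set_option linter.overlappingInstances false
set_option linter.unusedSectionVars false

universe u v

open FF IntermediateField Pool.Agent.W619.PQ Pool.Agent.W619.TW TensorProduct MvPolynomial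

namespace Pool.Agent.X309.PQ

/-- `x` (with coordinates in `K`) is the generic point, in homogeneous coordinates, of a projective
variety `X` over `k`; `z` has coordinates in the extension field `E` of `k`, and all forms which
vanish at `x` vanish at `z`, so `z` is an `E`-point of `X`. If `E` is the function field of a smooth
projective curve `C`, such a point is a morphism from `C` to `X`. -/
def IsPt (k : Type*) [Field k] {K E : Type*} [Field K] [Algebra k K] [Field E] [Algebra k E]
    {N : ℕ} (x : Fin (N + 1) → K) (z : Fin (N + 1) → E) : Prop :=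
  z ≠ 0 ∧ ∀ P : MvPolynomial (Fin (N + 1)) k, (∃ e, P.IsHomogeneous e) →
    aeval x P = 0 → aeval z P = 0

/-- The point with homogeneous coordinates `z` has a representative with coordinates in `k`; for a
morphism from a curve this means that it is constant. -/
def IsCst (k : Type*) [Field k] {E : Type*} [Field E] [Algebra k E] {N : ℕ}
    (z : Fin (N + 1) → E) : Prop :=
  ∃ (c : E) (a : Fin (N + 1) → k), ∀ i, z i = c * algebraMap k E (a i)

section

variable {k : Type*} [Field k] [IsAlgClosed k] {L : Type*} [Field L] [Algebra k L]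

/-- A point of an affine variety outside a proper closed subset. -/
theorem exists_algHom (S : Set L) (hS : S.Finite) (p : Algebra.adjoin k S) (hp : p ≠ 0) :
    ∃ ψ : Algebra.adjoin k S →ₐ[k] k, ψ p ≠ 0 := by
  have hT : (S ∪ {(p : L)⁻¹}).Finite := hS.union (Set.finite_singleton _)
  set T := S ∪ {(p : L)⁻¹} with hTdef
  have hft : Algebra.FiniteType k (Algebra.adjoin k T) :=
    (Subalgebra.fg_iff_finiteType _).1 ⟨hT.toFinset, by simp⟩
  obtain ⟨m, hm⟩ := Ideal.exists_maximal (Algebra.adjoin k T)
  let _ : Field (Algebra.adjoin k T ⧸ m) := Ideal.Quotient.field m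
  have hfin : Module.Finite k (Algebra.adjoin k T ⧸ m) :=
    finite_of_finite_type_of_isJacobsonRing k (Algebra.adjoin k T ⧸ m)
  have halg : Algebra.IsAlgebraic k (Algebra.adjoin k T ⧸ m) := Algebra.IsAlgebraic.of_finite k _
  let ψ : Algebra.adjoin k T →ₐ[k] k :=
    (IsAlgClosed.lift : (Algebra.adjoin k T ⧸ m) →ₐ[k] k).comp (Ideal.Quotient.mkₐ k m)
  have hle : Algebra.adjoin k S ≤ Algebra.adjoin k T :=
    Algebra.adjoin_mono Set.subset_union_left
  refine ⟨ψ.comp (Subalgebra.inclusion hle), fun h => ?_⟩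
  have hinv : (p : L)⁻¹ ∈ Algebra.adjoin k T := Algebra.subset_adjoin (Or.inr rfl)
  have hp' : (p : L) ≠ 0 := fun h0 => hp (Subtype.ext h0)
  have h1 : Subalgebra.inclusion hle p * ⟨_, hinv⟩ = 1 :=
    Subtype.ext (mul_inv_cancel₀ hp')
  have h2 := congrArg ψ h1
  rw [map_mul, map_one] at h2
  have h3 : ψ (Subalgebra.inclusion hle p) = 0 := h
  rw [h3, zero_mul] at h2
  exact zero_ne_one h2

end

theorem aeval_smul' {k : Type*} [Field k] {K : Type*} [Field K] [Algebra k K] {N : ℕ}
    (z : Fin (N + 1) → K) (c : K) {Q : MvPolynomial (Fin (N + 1)) k} {d : ℕ}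
    (hQ : Q.IsHomogeneous d) : aeval (fun i => c * z i) Q = c ^ d * aeval z Q := by
  rw [aeval_def, aeval_def, eval₂_eq', eval₂_eq', Finset.mul_sum]
  refine Finset.sum_congr rfl fun m hm => ?_
  have h1 : ∑ i, m i = d := by
    have h2 := hQ (mem_support_iff.1 hm)
    rw [Finsupp.weight_apply, Finsupp.sum_fintype _ _ (fun i => by simp)] at h2
    simpa using h2
  have h3 : ∏ i, (c * z i) ^ m i = c ^ d * ∏ i, z i ^ m i := by
    simp only [mul_pow]
    rw [Finset.prod_mul_distrib, Finset.prod_pow_eq_pow_sum, h1]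
  rw [h3]
  ring

section

variable {k : Type*} [Field k] {B : Type*} [CommRing B] [Algebra k B] {F : Type*} [Field F]
  [Algebra k F] {ι : Type*} (b : Module.Basis ι k F)

/-- coordinates of the elements of `B ⊗ F` in a basis of `F` -/
noncomputable def crd (l : ι) : B ⊗[k] F →ₗ[k] B :=
  (TensorProduct.rid k B).toLinearMap ∘ₗ (LinearMap.lTensor B (b.coord l))

theorem crd_tmul (l : ι) (y : B) (f : F) : crd b l (y ⊗ₜ[k] f) = b.repr f l • y := by
  simp [crd]

theorem crd_smul (l : ι) (y : B) (X : B ⊗[k] F) : crd b l (y • X) = y * crd b l X := by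
  induction X with
  | zero => simp
  | tmul a f =>
    rw [TensorProduct.smul_tmul', crd_tmul, crd_tmul, smul_eq_mul, mul_smul_comm]
  | add X Y hX hY => rw [smul_add, map_add, map_add, hX, hY, mul_add]

theorem crd_ext {X Y : B ⊗[k] F} (h : ∀ l, crd b l X = crd b l Y) : X = Y := by
  have h1 : ∀ (X : B ⊗[k] F) l, (b.baseChange B).repr X l = crd b l X := by
    intro X l
    induction X with
    | zero => simp
    | tmul a f => rw [Module.Basis.baseChange_repr_tmul, crd_tmul]
    | add X Y hX hY => rw [map_add, map_add, Finsupp.add_apply, hX, hY]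
  apply (b.baseChange B).repr.injective
  ext l
  rw [h1, h1, h]

/-- specialisation -/
noncomputable def spc (ψ : B →ₐ[k] k) : B ⊗[k] F →ₐ[k] F :=
  Algebra.TensorProduct.lift ((Algebra.ofId k F).comp ψ) (AlgHom.id k F)
    (fun _ _ => Commute.all _ _)

theorem aeval_spc (ψ : B →ₐ[k] k) {σ : Type*} (X : σ → B ⊗[k] F) (P : MvPolynomial σ k) :
    aeval (fun i => spc (F := F) ψ (X i)) P = spc (F := F) ψ (aeval X P) :=
  (MvPolynomial.comp_aeval_apply (f := X) (spc (F := F) ψ) P).symm

theorem repr_spc (ψ : B →ₐ[k] k) (X : B ⊗[k] F) (l : ι) :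
    b.repr (spc ψ X) l = ψ (crd b l X) := by
  induction X with
  | zero => simp
  | tmul a f =>
    rw [crd_tmul, map_smul]
    have h1 : spc ψ (a ⊗ₜ[k] f) = ψ a • f := by
      unfold spc
      rw [Algebra.TensorProduct.lift_tmul, Algebra.smul_def]
      rfl
    rw [h1, map_smul, Finsupp.smul_apply, smul_eq_mul, smul_eq_mul, mul_comm]
  | add X Y hX hY => rw [map_add, map_add, map_add, map_add, Finsupp.add_apply, hX, hY]

end

section

variable {k L : Type*} [Field k] [Field L] [Algebra k L] [CharZero k] [IsAlgClosed k]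
  {M F : IntermediateField k L}

/-- **Images of the curve.** -/
theorem exists_pt (h : Cur M F) {N : ℕ} (x : Fin (N + 1) → L) (hx : x ≠ 0)
    (hgen : ∀ E : IntermediateField k L, (∀ i j, x j ≠ 0 → x i / x j ∈ E) →
      Algebra.IsAlgebraic E L)
    (H : MvPolynomial (Fin (N + 1)) k) (hH : ∃ e, H.IsHomogeneous e) (hH0 : aeval x H ≠ 0) :
    ∃ z : Fin (N + 1) → F, IsPt k x z ∧ aeval z H ≠ 0 ∧ ¬ IsCst k z := by
  classical
  have hff := h.ff
  -- a common denominator
  choose a ha d hd hd0 hxa using fun i => h.frac (x i)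
  let c : L := ∏ i, d i
  have hc0 : c ≠ 0 := Finset.prod_ne_zero_iff.2 fun i _ => hd0 i
  have hcx : ∀ i, c * x i ∈ RR M F := by
    intro i
    have h1 : c * x i = a i * ∏ j ∈ Finset.univ.erase i, d j := by
      have h2 : c = d i * ∏ j ∈ Finset.univ.erase i, d j :=
        (Finset.mul_prod_erase _ _ (Finset.mem_univ i)).symm
      rw [h2, hxa i]
      have := hd0 i
      field_simp
    rw [h1]
    exact mul_mem (ha i) (prod_mem fun j _ => hd j)
  choose s β hβ using fun i => RR.expand (hcx i)
  let bM := Module.Basis.ofVectorSpace k M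
  let S : Set L := ⋃ i, (fun j => ((bM j : M) : L)) '' (s i : Set _)
  have hS : S.Finite := Set.finite_iUnion fun i => (Finset.finite_toSet _).image _
  set A : Subalgebra k L := Algebra.adjoin k S with hA
  have hAM : A ≤ M.toSubalgebra := by
    rw [hA, Algebra.adjoin_le_iff]
    intro z hz
    obtain ⟨i, hi⟩ := Set.mem_iUnion.1 hz
    obtain ⟨j, -, rfl⟩ := hi
    exact (bM j).2
  have hld0 : M.LinearDisjoint F :=
    IntermediateField.LinearDisjoint.of_basis_left (Module.Basis.ofVectorSpace k M)
      (Pool.Agent.W381.PG.linDisj h _ (Module.Basis.ofVectorSpace k M).linearIndependent)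
  have hld : A.LinearDisjoint F.toSubalgebra :=
    (IntermediateField.linearDisjoint_iff'.1 hld0).of_le_left_of_flat hAM
  let Φ : A ⊗[k] F →ₐ[k] L := Algebra.TensorProduct.lift A.val F.val
    (fun _ _ => Commute.all _ _)
  have hΦ : Function.Injective Φ := hld.injective
  have hΦt : ∀ (y : A) (f : F), Φ (y ⊗ₜ[k] f) = (y : L) * (f : L) := fun y f => by
    change Algebra.TensorProduct.lift A.val F.val _ (y ⊗ₜ[k] f) = _
    rw [Algebra.TensorProduct.lift_tmul]
    rfl
  -- the coordinates
  let X : Fin (N + 1) → A ⊗[k] F := fun i => ∑ j ∈ (s i).attach,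
    (⟨((bM j.1 : M) : L), Algebra.subset_adjoin (Set.mem_iUnion.2 ⟨i, j.1, j.2, rfl⟩)⟩ : A)
      ⊗ₜ[k] (β i j.1)
  have hX : ∀ i, Φ (X i) = c * x i := by
    intro i
    change Φ (∑ j ∈ (s i).attach, _) = _
    rw [map_sum, hβ i, ← Finset.sum_attach (s i)]
    exact Finset.sum_congr rfl fun j _ => hΦt _ _
  let b := Module.Basis.ofVectorSpace k F
  have hae : ∀ P : MvPolynomial (Fin (N + 1)) k, Φ (aeval X P) = aeval (fun i => c * x i) P := by
    intro P
    have h1 := MvPolynomial.comp_aeval_apply (f := X) Φ P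
    rw [h1, show (fun i => Φ (X i)) = fun i => c * x i from funext hX]
  have hsm : ∀ (y : A) (T : A ⊗[k] F), Φ (y • T) = (y : L) * Φ T := by
    intro y T
    induction T with
    | zero => simp
    | tmul a' f => rw [TensorProduct.smul_tmul', hΦt, hΦt, smul_eq_mul]; push_cast; ring
    | add T1 T2 h1 h2 => rw [smul_add, map_add, map_add, h1, h2, mul_add]
  have hψA : ∀ p : A, p ≠ 0 → ∃ ψ : A →ₐ[k] k, ψ p ≠ 0 := fun p hp => exists_algHom S hS p hp
  clear_value Φ X b c A
  -- a nonzero value of the form
  have hHX : aeval X H ≠ 0 := by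
    intro h0
    obtain ⟨e, he⟩ := hH
    have h1 := hae H
    rw [h0, map_zero, aeval_smul' x c he] at h1
    exact mul_ne_zero (pow_ne_zero _ hc0) hH0 h1.symm
  obtain ⟨l0, hl0⟩ : ∃ l, crd b l (aeval X H) ≠ 0 := by
    by_contra hcon
    push Not at hcon
    exact hHX (crd_ext b fun l => by rw [hcon l, map_zero])
  -- a nonzero minor
  obtain ⟨i, j, l, m, hδ⟩ : ∃ i j l m, crd b l (X i) * crd b m (X j) -
      crd b m (X i) * crd b l (X j) ≠ 0 := by
    by_contra hcon
    push Not at hcon
    obtain ⟨i0, hi0⟩ : ∃ i, x i ≠ 0 := by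
      by_contra h0
      push Not at h0
      exact hx (funext h0)
    have hXi0 : X i0 ≠ 0 := fun h0 => by
      have h1 := hX i0
      rw [h0, map_zero] at h1
      exact mul_ne_zero hc0 hi0 h1.symm
    obtain ⟨l1, hl1⟩ : ∃ l, crd b l (X i0) ≠ 0 := by
      by_contra h0
      push Not at h0
      exact hXi0 (crd_ext b fun l => by rw [h0 l, map_zero])
    have hprop : ∀ i, crd b l1 (X i0) • X i = crd b l1 (X i) • X i0 := by
      intro i
      refine crd_ext b fun m => ?_
      rw [crd_smul, crd_smul]
      have := hcon i i0 m l1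
      linear_combination this
    have hxi : ∀ i, x i = ((crd b l1 (X i) : A) : L) / ((crd b l1 (X i0) : A) : L) * x i0 := by
      intro i
      have h1 := congrArg Φ (hprop i)
      rw [hsm, hsm, hX, hX] at h1
      have h2 : ((crd b l1 (X i0) : A) : L) ≠ 0 := fun h0 => hl1 (Subtype.ext h0)
      field_simp
      apply mul_left_cancel₀ hc0
      linear_combination h1
    have halg := hgen M (by
      intro i j hj
      rw [hxi i, hxi j]
      have h3 : ((crd b l1 (X i0) : A) : L) ≠ 0 := fun h0 => hl1 (Subtype.ext h0)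
      have h4 : ((crd b l1 (X j) : A) : L) ≠ 0 := by
        intro h0
        apply hj
        rw [hxi j, h0, zero_div, zero_mul]
      have h5 : ((crd b l1 (X i) : A) : L) / ((crd b l1 (X i0) : A) : L) * x i0 /
          (((crd b l1 (X j) : A) : L) / ((crd b l1 (X i0) : A) : L) * x i0) =
          ((crd b l1 (X i) : A) : L) / ((crd b l1 (X j) : A) : L) := by
        field_simp
      rw [h5]
      exact div_mem (hAM (Subtype.property _)) (hAM (Subtype.property _)))
    obtain ⟨y, hy⟩ := IsFF.exists_transcendental (k := k) (K := F)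
    exact h.tr y hy (halg.isAlgebraic _)
  obtain ⟨ψ, hψ⟩ := hψA ((crd b l (X i) * crd b m (X j) -
      crd b m (X i) * crd b l (X j)) * crd b l0 (aeval X H)) (mul_ne_zero hδ hl0)
  rw [map_mul] at hψ
  have hψ1 := left_ne_zero_of_mul hψ
  have hψ2 := right_ne_zero_of_mul hψ
  rw [map_sub, map_mul, map_mul] at hψ1
  have haz := aeval_spc (F := F) ψ X
  refine ⟨fun i => spc (F := F) ψ (X i), ⟨fun h0 => ?_, ?_⟩, ?_, ?_⟩
  · have h1 : ∀ i l, ψ (crd b l (X i)) = 0 := by
      intro i l
      rw [← repr_spc, show spc (F := F) ψ (X i) = 0 from congrFun h0 i, map_zero]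
      rfl
    apply hψ1
    simp only [h1, zero_mul, sub_zero]
  · rintro P ⟨e, he⟩ hP
    have h1 : aeval X P = 0 := by
      apply hΦ
      rw [hae, aeval_smul' x c he, hP, mul_zero, map_zero]
    rw [haz, h1, map_zero]
  · intro h0
    rw [haz] at h0
    apply hψ2
    rw [← repr_spc, h0, map_zero]
    rfl
  · rintro ⟨y, a', hya⟩
    have h1 : ∀ i l, ψ (crd b l (X i)) = a' i * b.repr y l := by
      intro i l
      have h2 : spc (F := F) ψ (X i) = y * algebraMap k F (a' i) := hya i
      rw [← repr_spc, h2, mul_comm, ← Algebra.smul_def, map_smul, Finsupp.smul_apply,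
        smul_eq_mul]
    apply hψ1
    simp only [h1]
    ring

end

end Pool.Agent.X309.PQ
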